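import Pool.Agent.T9h72.KU.Spec

/-!
# Project KU (MP_d11fee_pr, Q2), piece EX: existence of a knot
-/

set_option autoImplicit false

namespace Pool.Agent.T9h89.KU

open MeasureTheory Set Filter Topology Pool.Agent.R190.KR Pool.Agent.T9h72.KU

variable (n m : ℕ)

noncomputable def P (β : ℝ) : ℝ := ∫ x in β..1, S n m x
noncomputable def Q (β : ℝ) : ℝ := ∫ x in β..1, S n m x * x
noncomputable def I0 (β : ℝ) : ℝ := P n m β - S n m β * (1 - β)
noncomputable def I1 (β : ℝ) : ℝ := Q n m β - β * P n m β - S n m β * ((1 - β) ^ 2 / 2)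

theorem int1 (β : ℝ) : ∫ x in β..1, (x - β) = (1 - β) ^ 2 / 2 := by
  rw [intervalIntegral.integral_comp_sub_right (fun x => x) β]
  simp

theorem int2 (β : ℝ) : ∫ x in β..1, (x - β) ^ 2 = (1 - β) ^ 3 / 3 := by
  rw [intervalIntegral.integral_comp_sub_right (fun x => x ^ 2) β, integral_pow]
  norm_num

theorem int_S (hm : 1 ≤ m) {β : ℝ} (h0 : 0 ≤ β) (h1 : β ≤ 1) : IntervalIntegrable (S n m) volume β 1 :=
  intervalIntegrable_S n m hm h0 h1 zero_le_one le_rfl

theorem int_Sx (hm : 1 ≤ m) {β : ℝ} (h0 : 0 ≤ β) (h1 : β ≤ 1) :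
    IntervalIntegrable (fun x => S n m x * x) volume β 1 :=
  (int_S n m hm h0 h1).mul_continuousOn continuousOn_id

theorem mom0 (hm : 1 ≤ m) {β : ℝ} (h0 : 0 ≤ β) (h1 : β ≤ 1) (a : ℝ) :
    ∫ x in β..1, (S n m x - (S n m β + a * (x - β))) = I0 n m β - a * ((1 - β) ^ 2 / 2) := by
  have hi := int_S n m hm h0 h1
  have e : ∀ x, S n m x - (S n m β + a * (x - β)) = S n m x - S n m β - a * (x - β) := fun x => by ring
  simp_rw [e]
  have hc1 : IntervalIntegrable (fun _ : ℝ => S n m β) volume β 1 := intervalIntegrable_const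
  have hc2 : IntervalIntegrable (fun x : ℝ => a * (x - β)) volume β 1 :=
    (by fun_prop : Continuous fun x : ℝ => a * (x - β)).intervalIntegrable _ _
  rw [intervalIntegral.integral_sub (hi.sub hc1) hc2, intervalIntegral.integral_sub hi hc1,
    intervalIntegral.integral_const, intervalIntegral.integral_const_mul, int1]
  unfold I0 P
  rw [smul_eq_mul]
  ring

theorem mom1 (hm : 1 ≤ m) {β : ℝ} (h0 : 0 ≤ β) (h1 : β ≤ 1) (a : ℝ) :
    ∫ x in β..1, (S n m x - (S n m β + a * (x - β))) * (x - β) =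
      I1 n m β - a * ((1 - β) ^ 3 / 3) := by
  have hi := int_S n m hm h0 h1
  have hi2 := int_Sx n m hm h0 h1
  have e : ∀ x, (S n m x - (S n m β + a * (x - β))) * (x - β) =
      S n m x * x - β * S n m x - S n m β * (x - β) - a * (x - β) ^ 2 := fun x => by ring
  simp_rw [e]
  have hc1 : IntervalIntegrable (fun x : ℝ => S n m β * (x - β)) volume β 1 :=
    (by fun_prop : Continuous fun x : ℝ => S n m β * (x - β)).intervalIntegrable _ _
  have hc2 : IntervalIntegrable (fun x : ℝ => a * (x - β) ^ 2) volume β 1 :=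
    (by fun_prop : Continuous fun x : ℝ => a * (x - β) ^ 2).intervalIntegrable _ _
  have hc3 : IntervalIntegrable (fun x : ℝ => β * S n m x) volume β 1 := hi.const_mul β
  rw [intervalIntegral.integral_sub ((hi2.sub hc3).sub hc1) hc2,
    intervalIntegral.integral_sub (hi2.sub hc3) hc1, intervalIntegral.integral_sub hi2 hc3,
    intervalIntegral.integral_const_mul, intervalIntegral.integral_const_mul,
    intervalIntegral.integral_const_mul, int1, int2]
  unfold I1 P Q
  ring

theorem cont_P (hm : 1 ≤ m) : ContinuousOn (P n m) (Icc (1 / 2) 1) := by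
  have h := int_S n m hm (β := 1 / 2) (by norm_num) (by norm_num)
  have h2 : IntegrableOn (S n m) (uIcc (1 / 2) 1) volume := by
    rw [uIcc_of_le (by norm_num), integrableOn_Icc_iff_integrableOn_Ioc]
    exact (intervalIntegrable_iff_integrableOn_Ioc_of_le (by norm_num)).1 h
  have h3 := intervalIntegral.continuousOn_primitive_interval_left h2
  rw [uIcc_of_le (by norm_num)] at h3
  exact h3

theorem cont_Q (hm : 1 ≤ m) : ContinuousOn (Q n m) (Icc (1 / 2) 1) := by
  have h := int_Sx n m hm (β := 1 / 2) (by norm_num) (by norm_num)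
  have h2 : IntegrableOn (fun x => S n m x * x) (uIcc (1 / 2) 1) volume := by
    rw [uIcc_of_le (by norm_num), integrableOn_Icc_iff_integrableOn_Ioc]
    exact (intervalIntegrable_iff_integrableOn_Ioc_of_le (by norm_num)).1 h
  have h3 := intervalIntegral.continuousOn_primitive_interval_left h2
  rw [uIcc_of_le (by norm_num)] at h3
  exact h3

theorem cont_S (hm : 1 ≤ m) : ContinuousOn (S n m) (Icc (1 / 2) 1) :=
  (continuousOn_S n m hm).mono (Icc_subset_Icc (by norm_num) le_rfl)

theorem cont_I0 (hm : 1 ≤ m) : ContinuousOn (I0 n m) (Icc (1 / 2) 1) := by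
  unfold I0
  exact (cont_P n m hm).sub ((cont_S n m hm).mul (by fun_prop))

theorem cont_I1 (hm : 1 ≤ m) : ContinuousOn (I1 n m) (Icc (1 / 2) 1) := by
  unfold I1
  exact ((cont_Q n m hm).sub (continuousOn_id.mul (cont_P n m hm))).sub
    ((cont_S n m hm).mul (by fun_prop))

/-- the sign pattern `+ -` -/
theorem pattern (hn : 1 ≤ n) (hm : 1 ≤ m) {c : ℝ} (hc : Peak n m c) {β a : ℝ} (hβ : β ∈ Icc (1 / 2) c)
    (ha : 0 ≤ a) (hr1 : 0 < S n m β + a * (1 - β))
    (hinit : ∀ z ∈ Icc β c, S n m β + a * (z - β) ≤ S n m z →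
      ∀ x ∈ Icc β z, S n m β + a * (x - β) ≤ S n m x) :
    ∃ c' : ℝ, β ≤ c' ∧ c' < 1 ∧ (∀ x ∈ Icc β c', 0 ≤ S n m x - (S n m β + a * (x - β))) ∧
      ∀ x ∈ Icc c' 1, S n m x - (S n m β + a * (x - β)) ≤ 0 := by
  have hβ1 : β < 1 := hβ.2.trans_lt hc.mem.2
  have hSβ : 0 ≤ S n m β := by
    have := hc.mono.monotoneOn ⟨le_rfl, hc.mem.1.le⟩ hβ hβ.1
    rwa [S_half] at this
  set r : ℝ → ℝ := fun x => S n m x - (S n m β + a * (x - β)) with hr
  have hrc : ContinuousOn r (Icc β 1) := by
    apply ((cont_S n m hm).mono (Icc_subset_Icc hβ.1 le_rfl)).sub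
    fun_prop
  have hr1' : r 1 < 0 := by
    simp only [hr]
    rw [S_at_one n m hn hm]
    linarith
  have hrβ : r β = 0 := by simp [hr]
  have hY : IsCompact {x | x ∈ Icc β 1 ∧ 0 ≤ r x} := by
    have h1 : IsClosed (Icc β 1 ∩ r ⁻¹' Ici 0) := hrc.preimage_isClosed_of_isClosed isClosed_Icc isClosed_Ici
    exact isCompact_Icc.of_isClosed_subset h1 inter_subset_left
  obtain ⟨c', hc', hmax⟩ := hY.exists_isGreatest ⟨β, ⟨le_rfl, hβ1.le⟩, hrβ.ge⟩
  have hc'1 : c' < 1 := by
    rcases hc'.1.2.eq_or_lt with h | h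
    · rw [h] at hc'
      linarith [hc'.2]
    · exact h
  have hneg : ∀ x ∈ Ioc c' 1, r x < 0 := by
    intro x hx
    by_contra hcon
    push Not at hcon
    have := hmax ⟨⟨hc'.1.1.trans hx.1.le, hx.2⟩, hcon⟩
    linarith [hx.1]
  have hrc' : r c' = 0 := by
    have h := intermediate_value_Icc' hc'.1.2 (hrc.mono (Icc_subset_Icc hc'.1.1 le_rfl))
    obtain ⟨z, hz, hz0⟩ := h (show (0 : ℝ) ∈ Icc (r 1) (r c') from ⟨hr1'.le, hc'.2⟩)
    have h2 : z ≤ c' := hmax ⟨⟨hc'.1.1.trans hz.1, hz.2⟩, hz0.ge⟩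
    have h3 : z = c' := le_antisymm h2 hz.1
    rw [← h3]
    exact hz0
  refine ⟨c', hc'.1.1, hc'1, ?_, ?_⟩
  · rcases le_or_gt c' c with hcc | hcc
    · intro x hx
      have := hinit c' ⟨hc'.1.1, hcc⟩ (by simp only [hr] at hrc'; linarith) x hx
      linarith
    · have hpos : 0 < S n m c' := by
        have h1 : S n m c' = S n m β + a * (c' - β) := by simp only [hr] at hrc'; linarith
        rw [h1]
        have hc'β : 0 < c' - β := by linarith [hβ.2]
        rcases hSβ.eq_or_lt with h | h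
        · have ha' : 0 < a := by
            rcases ha.eq_or_lt with h2 | h2
            · rw [← h, ← h2] at hr1
              simp at hr1
            · exact h2
          rw [← h]
          have := mul_pos ha' hc'β
          linarith
        · have := mul_nonneg ha hc'β.le
          linarith
      have hright : ∀ x ∈ Icc c c', S n m β + a * (x - β) ≤ S n m x := by
        intro x hx
        have h1 := hc.anti x c' hx.1 hx.2 hc'.1.2 hpos
        have h2 : S n m c' = S n m β + a * (c' - β) := by simp only [hr] at hrc'; linarith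
        have h3 : a * (x - β) ≤ a * (c' - β) := by
          apply mul_le_mul_of_nonneg_left _ ha
          linarith [hx.2]
        linarith
      intro x hx
      rcases le_or_gt x c with hxc | hxc
      · have := hinit c ⟨hβ.2, le_rfl⟩ (hright c ⟨le_rfl, hcc.le⟩) x ⟨hx.1, hxc⟩
        linarith
      · have := hright x ⟨hxc.le, hx.2⟩
        linarith
  · intro x hx
    rcases hx.1.eq_or_lt with h | h
    · rw [← h]
      exact hrc'.le
    · exact (hneg x ⟨h, hx.2⟩).le

/-- **EX** -/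
theorem ex : S_SHAPE → S_PM → S_EX := by
  intro hShape hPM n m hn hm hN1 hN0
  -- the peak
  have hpk : ∃ x ∈ Icc (1 / 2 : ℝ) 1, 0 < S n m x := by
    by_contra hcon
    push Not at hcon
    have : N1 n m ≤ 0 := by
      unfold N1
      have h1 : ∫ x in (1 / 2 : ℝ)..1, S n m x * (x - 1 / 2) ≤ ∫ x in (1 / 2 : ℝ)..1, (0 : ℝ) := by
        apply intervalIntegral.integral_mono_on (by norm_num)
          ((int_S n m hm (by norm_num) (by norm_num)).mul_continuousOn (by fun_prop))
          intervalIntegrable_const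
        intro x hx
        exact mul_nonpos_of_nonpos_of_nonneg (hcon x hx) (by linarith [hx.1])
      simpa using h1
    linarith
  obtain ⟨c, hc1, hc2, hc3, hc4, hc5⟩ := exists_peak n m hn hm hpk
  have hc : Peak n m c := ⟨hc1, hc2, hc3, hc4, hc5⟩
  obtain ⟨e, he, hconv, hconc⟩ := hShape n m hn hm c hc
  have he1 : e < 1 := he.2.trans_lt hc1.2
  have hsub : Icc (1 / 2 : ℝ) e ⊆ Icc (1 / 2) 1 := Icc_subset_Icc le_rfl he1.le
  have hS0 : ∀ β ∈ Icc (1 / 2 : ℝ) e, 0 ≤ S n m β := by
    intro β hβ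
    have := hc.mono.monotoneOn ⟨le_rfl, hc.mem.1.le⟩ ⟨hβ.1, hβ.2.trans he.2⟩ hβ.1
    rwa [S_half] at this
  -- values at `1/2`
  have hI0h : I0 n m (1 / 2) = N0 n m := by
    unfold I0 P N0
    rw [S_half]
    ring
  have hI1h : I1 n m (1 / 2) = N1 n m := by
    have h := mom1 n m hm (β := 1 / 2) (by norm_num) (by norm_num) 0
    simp only [zero_mul, add_zero, sub_zero, S_half] at h
    unfold N1
    exact h.symm
  set J : ℝ → ℝ := fun β => (1 - β) * I0 n m β - 3 / 2 * I1 n m β with hJ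
  have hJc : ContinuousOn J (Icc (1 / 2) e) := by
    apply ContinuousOn.sub
    · exact (by fun_prop : ContinuousOn (fun β : ℝ => 1 - β) _).mul ((cont_I0 n m hm).mono hsub)
    · exact continuousOn_const.mul ((cont_I1 n m hm).mono hsub)
  have hJh : J (1 / 2) < 0 := by
    simp only [hJ]
    rw [hI0h, hI1h]
    linarith
  -- (i)
  have hi : ∀ β ∈ Icc (1 / 2 : ℝ) e, I1 n m β = 0 → 0 < I0 n m β := by
    intro β hβ h0
    have hβh : 1 / 2 < β := by
      rcases hβ.1.eq_or_lt with h | h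
      · rw [← h, hI1h] at h0
        linarith
      · exact h
    have hβc : β ∈ Icc (1 / 2 : ℝ) c := ⟨hβ.1, hβ.2.trans he.2⟩
    have hpos : 0 < S n m β := by
      have := hc.mono ⟨le_rfl, hc.mem.1.le⟩ hβc hβh
      rwa [S_half] at this
    obtain ⟨c', h1, h2, h3, h4⟩ := pattern n m hn hm hc (β := β) (a := 0) hβc le_rfl (by simpa using hpos) (by
      intro z hz _ x hx
      have := hc.mono.monotoneOn hβc ⟨hβ.1.trans hx.1, hx.2.trans hz.2⟩ hx.1
      simpa using this)
    have hb0 : 0 ≤ β := by linarith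
    have hb1 : β ≤ 1 := by linarith
    have h5 := hPM (fun x => S n m x - (S n m β + 0 * (x - β))) β c' h1 h2
      (((cont_S n m hm).mono (Icc_subset_Icc hβ.1 le_rfl)).sub (by fun_prop)) h3 h4
      (by simp only [zero_mul, add_zero]; rw [S_at_one n m hn hm]; linarith)
      (by rw [mom1 n m hm hb0 hb1, h0]; ring)
    rw [mom0 n m hm hb0 hb1] at h5
    linarith
  -- Lemma A
  have hA : ∀ β' ∈ Icc (1 / 2 : ℝ) e, (∀ β ∈ Icc (1 / 2 : ℝ) β', J β ≤ 0) → 0 < I1 n m β' := by
    intro β' hβ' hle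
    by_contra hcon
    push Not at hcon
    have h := intermediate_value_Icc' hβ'.1 ((cont_I1 n m hm).mono (Icc_subset_Icc le_rfl (hβ'.2.trans he1.le)))
    obtain ⟨z, hz, hz0⟩ := h (show (0 : ℝ) ∈ Icc (I1 n m β') (I1 n m (1 / 2)) from
      ⟨hcon, by rw [hI1h]; exact hN1.le⟩)
    have h1 := hi z ⟨hz.1, hz.2.trans hβ'.2⟩ hz0
    have h2 := hle z hz
    simp only [hJ] at h2
    rw [hz0] at h2
    have h3 : 0 < 1 - z := by linarith [hz.2, hβ'.2]
    have := mul_pos h3 h1
    linarith
  -- Lemma B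
  have hB : 0 < I1 n m e → 0 < J e := by
    intro hI1
    have hL : 0 < 1 - e := by linarith
    set a : ℝ := 3 / (1 - e) ^ 3 * I1 n m e with ha
    have hapos : 0 < a := by positivity
    have hSe := hS0 e ⟨he.1, le_rfl⟩
    obtain ⟨c', h1, h2, h3, h4⟩ := pattern n m hn hm hc (β := e) (a := a) he hapos.le
      (by have := mul_pos hapos hL; linarith) (by
      intro z hz hzl x hx
      rcases hz.1.eq_or_lt with h | h
      · have hxe : x = e := le_antisymm (by rw [h]; exact hx.2) hx.1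
        rw [hxe]
        simp
      · have hze : 0 < z - e := by linarith
        have h5 := hconc.2 (⟨le_rfl, he.2⟩ : e ∈ Icc e c) hz
          (show 0 ≤ (z - x) / (z - e) from div_nonneg (by linarith [hx.2]) hze.le)
          (show 0 ≤ (x - e) / (z - e) from div_nonneg (by linarith [hx.1]) hze.le)
          (by rw [← add_div]; rw [show z - x + (x - e) = z - e by ring]; exact div_self hze.ne')
        have h6 : (z - x) / (z - e) * e + (x - e) / (z - e) * z = x := by
          field_simp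
          ring
        simp only [smul_eq_mul] at h5
        rw [h6] at h5
        have h7 : (z - x) / (z - e) = 1 - (x - e) / (z - e) := by
          field_simp
          ring
        rw [h7] at h5
        have h8 : 0 ≤ (x - e) / (z - e) := div_nonneg (by linarith [hx.1]) hze.le
        have h9 : (x - e) / (z - e) * (S n m e + a * (z - e)) ≤ (x - e) / (z - e) * S n m z :=
          mul_le_mul_of_nonneg_left hzl h8
        have h10 : (x - e) / (z - e) * (a * (z - e)) = a * (x - e) := by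
          field_simp
        linarith)
    have he0 : 0 ≤ e := by linarith [he.1]
    have h5 := hPM (fun x => S n m x - (S n m e + a * (x - e))) e c' h1 h2
      (((cont_S n m hm).mono (Icc_subset_Icc he.1 le_rfl)).sub (by fun_prop)) h3 h4
      (by
        show S n m 1 - (S n m e + a * (1 - e)) < 0
        rw [S_at_one n m hn hm]
        have := mul_pos hapos hL
        linarith)
      (by rw [mom1 n m hm he0 he1.le, ha]; field_simp; ring)
    rw [mom0 n m hm he0 he1.le] at h5
    simp only [hJ]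
    have h6 : a * ((1 - e) ^ 2 / 2) * (1 - e) = 3 / 2 * I1 n m e := by
      rw [ha]
      field_simp
    have h7 := mul_pos hL h5
    have h8 : (1 - e) * (I0 n m e - a * ((1 - e) ^ 2 / 2)) = (1 - e) * I0 n m e - a * ((1 - e) ^ 2 / 2) * (1 - e) := by
      ring
    rw [h8, h6] at h7
    exact h7
  -- the first zero
  have hne : {β | β ∈ Icc (1 / 2 : ℝ) e ∧ 0 ≤ J β}.Nonempty := by
    by_contra hcon
    rw [not_nonempty_iff_eq_empty] at hcon
    have hneg : ∀ β ∈ Icc (1 / 2 : ℝ) e, J β < 0 := by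
      intro β hβ
      by_contra h
      push Not at h
      have : β ∈ ({β | β ∈ Icc (1 / 2 : ℝ) e ∧ 0 ≤ J β} : Set ℝ) := ⟨hβ, h⟩
      rw [hcon] at this
      exact this
    have h1 := hA e ⟨he.1, le_rfl⟩ (fun β hβ => (hneg β hβ).le)
    have h2 := hB h1
    have h3 := hneg e ⟨he.1, le_rfl⟩
    linarith
  have hY : IsCompact {β | β ∈ Icc (1 / 2 : ℝ) e ∧ 0 ≤ J β} := by
    have h1 : IsClosed (Icc (1 / 2 : ℝ) e ∩ J ⁻¹' Ici 0) :=
      hJc.preimage_isClosed_of_isClosed isClosed_Icc isClosed_Ici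
    exact isCompact_Icc.of_isClosed_subset h1 inter_subset_left
  obtain ⟨β, hβ, hmin⟩ := hY.exists_isLeast hne
  have hlt : ∀ z ∈ Ico (1 / 2 : ℝ) β, J z < 0 := by
    intro z hz
    by_contra h
    push Not at h
    have := hmin ⟨⟨hz.1, hz.2.le.trans hβ.1.2⟩, h⟩
    linarith [hz.2]
  have hJβ : J β = 0 := by
    have h := intermediate_value_Icc hβ.1.1 (hJc.mono (Icc_subset_Icc le_rfl hβ.1.2))
    obtain ⟨z, hz, hz0⟩ := h (show (0 : ℝ) ∈ Icc (J (1 / 2)) (J β) from ⟨hJh.le, hβ.2⟩)
    have h2 : β ≤ z := hmin ⟨⟨hz.1, hz.2.trans hβ.1.2⟩, hz0.ge⟩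
    have h3 : z = β := le_antisymm hz.2 h2
    rw [← h3]
    exact hz0
  have hβh : 1 / 2 < β := by
    rcases hβ.1.1.eq_or_lt with h | h
    · rw [← h] at hJβ
      linarith
    · exact h
  have hI1β : 0 < I1 n m β := by
    apply hA β hβ.1
    intro z hz
    rcases hz.2.eq_or_lt with h | h
    · rw [h]
      exact hJβ.le
    · exact (hlt z ⟨hz.1, h⟩).le
  have hβ1 : β < 1 := hβ.1.2.trans_lt he1
  have hL : 0 < 1 - β := by linarith
  have hb0 : 0 ≤ β := by linarith
  refine ⟨β, 3 / (1 - β) ^ 3 * I1 n m β, ⟨hβh, hβ1⟩, ?_, ?_, by positivity, ?_, ?_⟩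
  · exact hconv.subset (Icc_subset_Icc le_rfl hβ.1.2) (convex_Icc _ _)
  · exact hc.mono.mono (Icc_subset_Icc le_rfl (hβ.1.2.trans he.2))
  · rw [mom0 n m hm hb0 hβ1.le]
    simp only [hJ] at hJβ
    have h1 : 3 / (1 - β) ^ 3 * I1 n m β * ((1 - β) ^ 2 / 2) = 3 / 2 * I1 n m β / (1 - β) := by
      field_simp
    rw [h1, sub_eq_zero, eq_div_iff hL.ne']
    linarith
  · rw [mom1 n m hm hb0 hβ1.le]
    field_simp
    ring

end Pool.Agent.T9h89.KU
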