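import Pool.Agent.T9h72.KU.Spec

/-!
# Project KU (MP_d11fee_pr, Q2), piece G0
-/

set_option autoImplicit false

namespace Pool.Agent.T9h89.KU

open Set Filter Topology Pool.Agent.R190.KR Pool.Agent.T9h72.KU

theorem N2_pos {t : ℝ} (ht : 0 < t) : 0 < (t - 2) * Real.exp t + 2 + t := by
  have hmono : StrictMonoOn (fun t : ℝ => (t - 2) * Real.exp t + 2 + t) (Ici 0) := by
    have hd : ∀ t : ℝ, HasDerivAt (fun t : ℝ => (t - 2) * Real.exp t + 2 + t)
        (Real.exp t + (t - 2) * Real.exp t + 1) t := by
      intro t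
      have := ((((hasDerivAt_id t).sub_const 2).mul (Real.hasDerivAt_exp t)).add_const 2).add
        (hasDerivAt_id t)
      refine this.congr_deriv ?_
      simp
    apply strictMonoOn_of_deriv_pos (convex_Ici 0)
    · exact fun t _ => (hd t).continuousAt.continuousWithinAt
    · intro t ht
      rw [interior_Ici] at ht
      have ht' : (0 : ℝ) < t := ht
      rw [(hd t).deriv]
      have h1 := Real.add_one_lt_exp (x := -t) (by linarith)
      have h2 : Real.exp t * Real.exp (-t) = 1 := by rw [← Real.exp_add]; simp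
      have h3 := Real.exp_pos t
      nlinarith [mul_lt_mul_of_pos_left h1 h3]
  have := hmono (mem_Ici.2 le_rfl) (mem_Ici.2 ht.le) ht
  simpa using this

theorem d_strictMono {s t : ℝ} (hs : 0 < s) (hst : s < t) :
    (Real.exp s - 1 - s) / s ^ 2 < (Real.exp t - 1 - t) / t ^ 2 := by
  have hmono : StrictMonoOn (fun t : ℝ => (Real.exp t - 1 - t) / t ^ 2) (Ioi 0) := by
    have hd : ∀ t : ℝ, 0 < t → HasDerivAt (fun t : ℝ => (Real.exp t - 1 - t) / t ^ 2)
        (((t - 2) * Real.exp t + 2 + t) / t ^ 3) t := by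
      intro t ht
      have := (((Real.hasDerivAt_exp t).sub_const 1).sub (hasDerivAt_id t)).div
        ((hasDerivAt_id t).pow 2) (by simpa using ht.ne')
      refine this.congr_deriv ?_
      simp only [id_eq, Pi.pow_apply, Pi.sub_apply]
      field_simp
      ring
    apply strictMonoOn_of_deriv_pos (convex_Ioi 0)
    · exact fun t ht => (hd t ht).continuousAt.continuousWithinAt
    · intro t ht
      rw [interior_Ioi] at ht
      rw [(hd t ht).deriv]
      have ht' : 0 < t := ht
      exact div_pos (N2_pos ht') (by positivity)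
  exact hmono (mem_Ioi.2 hs) (mem_Ioi.2 (hs.trans hst)) hst

/-- **G0** -/
theorem g0 : S_G0 := by
  intro x hx
  have hx0 : 0 < x := by linarith [hx.1]
  have hu : 0 < 1 - x := by linarith [hx.2]
  have ha := A_pos hx0 hx.2
  have hb := A_pos (x := 1 - x) hu (by linarith)
  have hab : A (1 - x) < A x := by
    unfold A
    rw [sub_sub_cancel]
    have := Real.log_lt_log hu (show 1 - x < x by linarith [hx.1])
    linarith
  have hea : Real.exp (A x) = 1 / (1 - x) := by
    have h := exp_neg_A hx.2
    rw [Real.exp_neg] at h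
    rw [← h]
    simp
  have heb : Real.exp (A (1 - x)) = 1 / x := by
    have h := exp_neg_A (x := 1 - x) (by linarith)
    rw [Real.exp_neg, sub_sub_cancel] at h
    have h' := congrArg (fun t => t⁻¹) h
    simpa using h'
  have h := d_strictMono hb hab
  rw [hea, heb, div_lt_div_iff₀ (by positivity) (by positivity)] at h
  set a := A x
  set b := A (1 - x)
  set u := 1 - x with hu'
  have hv : x = 1 - u := by rw [hu']; ring
  have h2 : (1 / x - 1 - b) * a ^ 2 * (x * u) < (1 / u - 1 - a) * b ^ 2 * (x * u) :=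
    mul_lt_mul_of_pos_right h (mul_pos hx0 hu)
  have h3 : (1 / x - 1 - b) * a ^ 2 * (x * u) = (1 - x - x * b) * a ^ 2 * u := by
    field_simp
  have h4 : (1 / u - 1 - a) * b ^ 2 * (x * u) = (1 - u - u * a) * b ^ 2 * x := by
    field_simp
  rw [h3, h4] at h2
  have h5 : 1 - x = u := rfl
  have h6 : 1 - u = x := hv.symm
  rw [h5, h6] at h2
  -- u (u - x b) a² < x (x - u a) b²
  have h7 : 0 < x * u := mul_pos hx0 hu
  nlinarith [mul_lt_mul_of_pos_right h2 h7]

end Pool.Agent.T9h89.KU
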